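import Mathlib

/-!
# Spherical conjugacy languages of groups with free quotients (MP_d3f668_al)

If a homomorphism from `G` to a free group `F(Z)` sends letters of `X` to two different elements
`z₁`, `z₂` of the basis `Z` and all other letters to elements of exponent sum `≤ 0` in `z₁, z₂` (for
example into `Z ∪ Z⁻¹ ∪ {1}`), then `SL(G,X)` is not regular.
-/

set_option autoImplicit false

namespace Pool.Agent.Results.MP_d3f668_al.FreeQuotients

variable {G α Z : Type} [Group G]

/-- The element of `G` represented by the word `w` over the alphabet `α` (letters `ι a`). -/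
def ev (ι : α → G) (w : List α) : G := (w.map ι).prod

/-- The spherical conjugacy language `SL(G,X)`: the words which are shortlex least among all words
representing elements of the same conjugacy class. -/
def SL [LinearOrder α] (ι : α → G) : Language α :=
  {w : List α | ∀ v : List α, IsConj (ev ι v) (ev ι w) →
    (w.length < v.length ∨ (w.length = v.length ∧ (w = v ∨ w < v)))}

lemma ev_nil (ι : α → G) : ev ι [] = 1 := rfl

lemma ev_append (ι : α → G) (u v : List α) : ev ι (u ++ v) = ev ι u * ev ι v := by
  simp [ev]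

lemma ev_cons (ι : α → G) (a : α) (v : List α) : ev ι (a :: v) = ι a * ev ι v := by
  simp [ev]

/-! ### lexicographic order -/

section Lex

variable [LinearOrder α]

lemma le_of_map (g : α → α) (v : List α) (h : ∀ x ∈ v, g x ≤ x) : v.map g ≤ v := by
  induction v with
  | nil => exact le_refl _
  | cons a v ih =>
    rw [List.map_cons]
    have h1 := h a List.mem_cons_self
    have h2 := ih fun x hx => h x (List.mem_cons_of_mem _ hx)
    rcases eq_or_lt_of_le h1 with h3 | h3
    · rw [h3]
      rcases eq_or_lt_of_le h2 with h4 | h4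
      · rw [h4]
      · exact le_of_lt (List.cons_lt_cons_iff.2 (Or.inr ⟨rfl, h4⟩))
    · exact le_of_lt (List.cons_lt_cons_iff.2 (Or.inl h3))

lemma rep_lt (x y : α) (hxy : x < y) (i m : ℕ) (him : i < m) (u v : List α) :
    List.replicate m x ++ u < List.replicate i x ++ (y :: v) := by
  induction i generalizing m with
  | zero =>
    obtain ⟨m, rfl⟩ : ∃ k, m = k + 1 := ⟨m - 1, by omega⟩
    rw [List.replicate_succ]
    exact List.cons_lt_cons_iff.2 (Or.inl hxy)
  | succ i ih =>
    obtain ⟨m, rfl⟩ : ∃ k, m = k + 1 := ⟨m - 1, by omega⟩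
    rw [List.replicate_succ, List.replicate_succ]
    exact List.cons_lt_cons_iff.2 (Or.inr ⟨rfl, ih m (by omega)⟩)

end Lex

/-! ### lists with two `true`s -/

lemma two_trues (l : List Bool) (h : l.count true = 2) : ∃ i j k : ℕ,
    l = List.replicate i false ++ true :: (List.replicate j false ++
      true :: List.replicate k false) := by
  have h0 : ∀ l : List Bool, l.count true = 0 → l = List.replicate l.length false := by
    intro l hl
    rw [List.eq_replicate_iff]
    refine ⟨rfl, fun b hb => ?_⟩
    cases b
    · rfl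
    · exact absurd hb (List.count_eq_zero.1 hl)
  have h1 : ∀ l : List Bool, l.count true = 1 → ∃ j k : ℕ,
      l = List.replicate j false ++ true :: List.replicate k false := by
    intro l
    induction l with
    | nil => intro hl; simp at hl
    | cons b l ih =>
      intro hl
      cases b
      · rw [List.count_cons_of_ne (by simp)] at hl
        obtain ⟨j, k, e⟩ := ih hl
        exact ⟨j + 1, k, by rw [e, List.replicate_succ, List.cons_append]⟩
      · rw [List.count_cons_self] at hl
        exact ⟨0, l.length, by rw [← h0 l (by omega)]; rfl⟩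
  induction l with
  | nil => simp at h
  | cons b l ih =>
    cases b
    · rw [List.count_cons_of_ne (by simp)] at h
      obtain ⟨i, j, k, e⟩ := ih h
      exact ⟨i + 1, j, k, by rw [e, List.replicate_succ, List.cons_append]⟩
    · rw [List.count_cons_self] at h
      obtain ⟨j, k, e⟩ := h1 l (by omega)
      exact ⟨0, j, k, by rw [e]; rfl⟩

/-! ### matrices -/

/-- the matrix `[[1,1],[0,1]]` -/
def mA : (Matrix (Fin 2) (Fin 2) ℤ)ˣ where
  val := !![1, 1; 0, 1]
  inv := !![1, -1; 0, 1]
  val_inv := by simp [Matrix.one_fin_two]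
  inv_val := by simp [Matrix.one_fin_two]

/-- the matrix `[[1,0],[1,1]]` -/
def mB : (Matrix (Fin 2) (Fin 2) ℤ)ˣ where
  val := !![1, 0; 1, 1]
  inv := !![1, 0; -1, 1]
  val_inv := by simp [Matrix.one_fin_two]
  inv_val := by simp [Matrix.one_fin_two]

lemma mA_pow (n : ℕ) : ((mA ^ n : (Matrix (Fin 2) (Fin 2) ℤ)ˣ) : Matrix (Fin 2) (Fin 2) ℤ) =
    !![1, (n : ℤ); 0, 1] := by
  induction n with
  | zero => simp [Matrix.one_fin_two]
  | succ n ih =>
    rw [pow_succ, Units.val_mul, ih]
    simp [mA]
    ring

/-- the product of matrices coded by a list -/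
def mprod (l : List Bool) : (Matrix (Fin 2) (Fin 2) ℤ)ˣ :=
  (l.map fun b => if b then mB else mA).prod

lemma mprod_form (i j k : ℕ) : mprod (List.replicate i false ++ true ::
    (List.replicate j false ++ true :: List.replicate k false)) =
      mA ^ i * (mB * (mA ^ j * (mB * mA ^ k))) := by
  simp [mprod]

lemma trace_form (i j k : ℕ) : Matrix.trace
    ((mA ^ i * (mB * (mA ^ j * (mB * mA ^ k))) : (Matrix (Fin 2) (Fin 2) ℤ)ˣ) :
      Matrix (Fin 2) (Fin 2) ℤ) = ((i : ℤ) + k) * j + 2 * (i + j + k) + 2 := by
  simp only [Units.val_mul, mA_pow]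
  simp [mB, Matrix.trace_fin_two]
  ring

/-! ### homomorphisms from the free group -/

section Hom

open Classical in
/-- exponent sum of the letters `z₁`, `z₂` -/
noncomputable def tau (z₁ z₂ : Z) : FreeGroup Z →* Multiplicative ℤ :=
  FreeGroup.lift fun z => if z = z₁ ∨ z = z₂ then Multiplicative.ofAdd 1 else 1

open Classical in
/-- exponent sum of the letter `z₂` -/
noncomputable def beta (z₂ : Z) : FreeGroup Z →* Multiplicative ℤ :=
  FreeGroup.lift fun z => if z = z₂ then Multiplicative.ofAdd 1 else 1

open Classical in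
/-- the representation `z₁ ↦ A`, `z₂ ↦ B` -/
noncomputable def rho (z₁ z₂ : Z) : FreeGroup Z →* (Matrix (Fin 2) (Fin 2) ℤ)ˣ :=
  FreeGroup.lift fun z => if z = z₂ then mB else if z = z₁ then mA else 1

variable (ι : α → G) (f : G →* FreeGroup Z) (z₁ z₂ : Z)

lemma tau_letter (hf : ∀ x, f (ι x) = FreeGroup.of z₁ ∨ f (ι x) = FreeGroup.of z₂ ∨
    Multiplicative.toAdd (tau z₁ z₂ (f (ι x))) ≤ 0) (x : α) :
    Multiplicative.toAdd (tau z₁ z₂ (f (ι x))) ≤ 1 ∧
      (Multiplicative.toAdd (tau z₁ z₂ (f (ι x))) = 1 →
        f (ι x) = FreeGroup.of z₁ ∨ f (ι x) = FreeGroup.of z₂) := by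
  rcases hf x with h | h | h
  · exact ⟨by rw [h]; simp [tau], fun _ => Or.inl h⟩
  · exact ⟨by rw [h]; simp [tau], fun _ => Or.inr h⟩
  · exact ⟨by omega, fun h1 => by omega⟩

lemma tau_word (hf : ∀ x, f (ι x) = FreeGroup.of z₁ ∨ f (ι x) = FreeGroup.of z₂ ∨
    Multiplicative.toAdd (tau z₁ z₂ (f (ι x))) ≤ 0) (v : List α) :
    Multiplicative.toAdd (tau z₁ z₂ (f (ev ι v))) ≤ v.length ∧
      (Multiplicative.toAdd (tau z₁ z₂ (f (ev ι v))) = v.length →
        ∀ x ∈ v, f (ι x) = FreeGroup.of z₁ ∨ f (ι x) = FreeGroup.of z₂) := by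
  induction v with
  | nil => simp [ev_nil]
  | cons a v ih =>
    have ha := tau_letter ι f z₁ z₂ hf a
    rw [ev_cons, map_mul, map_mul, toAdd_mul, List.length_cons]
    push_cast
    refine ⟨by linarith [ha.1, ih.1], fun he => ?_⟩
    have h1 : Multiplicative.toAdd (tau z₁ z₂ (f (ι a))) = 1 := by linarith [ha.1, ih.1]
    have h2 : Multiplicative.toAdd (tau z₁ z₂ (f (ev ι v))) = v.length := by
      linarith [ha.1, ih.1]
    intro x hx
    rcases List.mem_cons.1 hx with rfl | hx
    · exact ha.2 h1
    · exact ih.2 h2 x hx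

open Classical in
/-- the list of the letters over `z₂` -/
noncomputable def code (v : List α) : List Bool := v.map fun x => decide (f (ι x) = FreeGroup.of z₂)

lemma beta_word (hz : z₁ ≠ z₂) (v : List α)
    (hv : ∀ x ∈ v, f (ι x) = FreeGroup.of z₁ ∨ f (ι x) = FreeGroup.of z₂) :
    Multiplicative.toAdd (beta z₂ (f (ev ι v))) = ((code ι f z₂ v).count true : ℤ) ∧
      rho z₁ z₂ (f (ev ι v)) = mprod (code ι f z₂ v) := by
  classical
  have hne : (FreeGroup.of z₁ : FreeGroup Z) ≠ FreeGroup.of z₂ := fun h =>
    hz (FreeGroup.of_injective h)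
  induction v with
  | nil => simp [ev_nil, code, mprod]
  | cons a v ih =>
    obtain ⟨i1, i2⟩ := ih fun x hx => hv x (List.mem_cons_of_mem _ hx)
    have ec : code ι f z₂ (a :: v) = decide (f (ι a) = FreeGroup.of z₂) :: code ι f z₂ v := by
      simp [code]
    rw [ev_cons, map_mul f, map_mul (beta z₂), map_mul (rho z₁ z₂), toAdd_mul, i1, i2, ec]
    rcases hv a List.mem_cons_self with h | h
    · rw [h]
      constructor
      · rw [List.count_cons_of_ne (by simp [hne])]
        simp [beta, hz]
      · simp [rho, hz, mprod, hne]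
    · rw [h]
      constructor
      · simp only [decide_true, List.count_cons_self]
        simp [beta]
        ring
      · simp [rho, mprod]

end Hom

/-- **Main theorem.** Let `ι(α)` be a finite subset of the group `G`, with any total order,
`f : G → F(Z)` a homomorphism to a free group and `z₁ ≠ z₂` in `Z`. Suppose that `z₁` and `z₂` are
images of letters and that the image of every other letter has exponent sum `≤ 0` in `z₁, z₂`. Then
`SL` is not regular. -/
theorem result [LinearOrder α] [Fintype α] (ι : α → G) (f : G →* FreeGroup Z)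
    (z₁ z₂ : Z) (hz : z₁ ≠ z₂) (h₁ : ∃ x, f (ι x) = FreeGroup.of z₁)
    (h₂ : ∃ x, f (ι x) = FreeGroup.of z₂)
    (hf : ∀ x, f (ι x) = FreeGroup.of z₁ ∨ f (ι x) = FreeGroup.of z₂ ∨
      Multiplicative.toAdd (tau z₁ z₂ (f (ι x))) ≤ 0) : ¬ (SL ι).IsRegular := by
  classical
  -- least letters over `z₁` and `z₂`
  have hmin : ∀ z : Z, (∃ x, f (ι x) = FreeGroup.of z) →
      ∃ x, f (ι x) = FreeGroup.of z ∧ ∀ y, f (ι y) = FreeGroup.of z → x ≤ y := by
    intro z hzx
    obtain ⟨x, hx⟩ := hzx
    obtain ⟨y, hy, hm⟩ := Finset.exists_min_image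
      (Finset.univ.filter fun y : α => f (ι y) = FreeGroup.of z) id
      ⟨x, by simp [hx]⟩
    refine ⟨y, (Finset.mem_filter.1 hy).2, fun w hw => hm w (by simp [hw])⟩
  obtain ⟨x₁, e₁, m₁⟩ := hmin z₁ h₁
  obtain ⟨x₂, e₂, m₂⟩ := hmin z₂ h₂
  clear h₁ h₂
  -- without loss of generality `x₁ < x₂`
  wlog hlt : x₁ < x₂ generalizing z₁ z₂ x₁ x₂ with H
  · refine H z₂ z₁ hz.symm (fun x => ?_) x₂ e₂ m₂ x₁ e₁ m₁ ?_
    · rcases hf x with h | h | h
      · exact Or.inr (Or.inl h)
      · exact Or.inl h
      · refine Or.inr (Or.inr ?_)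
        have e : tau z₂ z₁ = tau z₁ z₂ := by
          ext z
          simp [tau, or_comm]
        rw [e]
        exact h
    rcases lt_trichotomy x₁ x₂ with h | h | h
    · exact absurd h hlt
    · exfalso
      rw [h, e₂] at e₁
      exact hz (FreeGroup.of_injective e₁).symm
    · exact h
  -- the words `x₁^n x₂ x₁^n x₂` are in `SL`
  have key : ∀ n : ℕ, List.replicate n x₁ ++ x₂ :: (List.replicate n x₁ ++ x₂ :: []) ∈ SL ι := by
    intro n v hv
    set w : List α := List.replicate n x₁ ++ x₂ :: (List.replicate n x₁ ++ x₂ :: []) with hw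
    have hwlen : w.length = 2 * n + 2 := by
      simp [hw]; ring
    have hwl : ∀ x ∈ w, f (ι x) = FreeGroup.of z₁ ∨ f (ι x) = FreeGroup.of z₂ := by
      intro x hx
      simp only [hw, List.mem_append, List.mem_replicate, List.mem_cons, List.not_mem_nil,
        or_false] at hx
      rcases hx with ⟨_, rfl⟩ | rfl | ⟨_, rfl⟩ | rfl
      · exact Or.inl e₁
      · exact Or.inr e₂
      · exact Or.inl e₁
      · exact Or.inr e₂
    have htau : ∀ u : List α, (∀ x ∈ u, f (ι x) = FreeGroup.of z₁ ∨ f (ι x) = FreeGroup.of z₂) →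
        Multiplicative.toAdd (tau z₁ z₂ (f (ev ι u))) = u.length := by
      intro u
      induction u with
      | nil => intro _; simp [ev_nil]
      | cons a u ih =>
        intro hu
        rw [ev_cons, map_mul, map_mul, toAdd_mul, ih fun x hx => hu x (List.mem_cons_of_mem _ hx)]
        rcases hu a List.mem_cons_self with h | h <;> rw [h] <;> simp [tau] <;> ring
    have hfc : IsConj (f (ev ι v)) (f (ev ι w)) := f.map_isConj hv
    have htv : tau z₁ z₂ (f (ev ι v)) = tau z₁ z₂ (f (ev ι w)) :=
      isConj_iff_eq.1 ((tau z₁ z₂).map_isConj hfc)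
    have hbv : beta z₂ (f (ev ι v)) = beta z₂ (f (ev ι w)) :=
      isConj_iff_eq.1 ((beta z₂).map_isConj hfc)
    have hv1 := tau_word ι f z₁ z₂ hf v
    rw [htv, htau w hwl] at hv1
    rcases Nat.lt_or_ge w.length v.length with hl | hl
    · exact Or.inl hl
    · right
      have hle : w.length = v.length := by
        have := hv1.1
        omega
      refine ⟨hle, ?_⟩
      have hvl := hv1.2 (by exact_mod_cast hle)
      obtain ⟨bv1, bv2⟩ := beta_word ι f z₁ z₂ hz v hvl
      obtain ⟨bw1, bw2⟩ := beta_word ι f z₁ z₂ hz w hwl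
      have hne : (FreeGroup.of z₁ : FreeGroup Z) ≠ FreeGroup.of z₂ := fun h =>
        hz (FreeGroup.of_injective h)
      have hcw : code ι f z₂ w = List.replicate n false ++ true ::
          (List.replicate n false ++ true :: List.replicate 0 false) := by
        simp [code, hw, e₁, e₂, hne]
      have hcnt : (code ι f z₂ v).count true = 2 := by
        have h1 : ((code ι f z₂ v).count true : ℤ) = (code ι f z₂ w).count true := by
          rw [← bv1, ← bw1, hbv]
        have h2 : (code ι f z₂ w).count true = 2 := by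
          rw [hcw]
          simp [List.count_replicate]
        rw [h2] at h1
        exact_mod_cast h1
      obtain ⟨i, j, k, hijk⟩ := two_trues _ hcnt
      have hsum : i + j + k = 2 * n := by
        have h1 : (code ι f z₂ v).length = v.length := by simp [code]
        rw [hijk] at h1
        simp at h1
        omega
      have htr : Matrix.trace ((rho z₁ z₂ (f (ev ι v)) : (Matrix (Fin 2) (Fin 2) ℤ)ˣ) :
          Matrix (Fin 2) (Fin 2) ℤ) = Matrix.trace
          ((rho z₁ z₂ (f (ev ι w)) : (Matrix (Fin 2) (Fin 2) ℤ)ˣ) : Matrix (Fin 2) (Fin 2) ℤ) := by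
        obtain ⟨c, hc⟩ := isConj_iff.1 ((rho z₁ z₂).map_isConj hfc)
        rw [← hc, Units.val_mul, Units.val_mul, Matrix.trace_units_conj]
      rw [bv2, bw2, hijk, hcw, mprod_form, mprod_form, trace_form, trace_form] at htr
      have hjn : j = n := by
        have h1 : ((i : ℤ) + k) + j = 2 * n := by exact_mod_cast (by omega : i + k + j = 2 * n)
        have h2 : ((j : ℤ) - n) ^ 2 = 0 := by
          have h3 : (i : ℤ) + k = 2 * n - j := by linarith
          rw [h3] at htr
          push_cast at htr
          have h4 : (i : ℤ) + j + k = 2 * n := by exact_mod_cast hsum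
          rw [h4] at htr
          nlinarith
        have h3 : (j : ℤ) - n = 0 := by
          exact pow_eq_zero_iff (two_ne_zero) |>.1 h2
        have : (j : ℤ) = n := by linarith
        exact_mod_cast this
      subst hjn
      have hin : i ≤ j := by omega
      -- compare
      have hle1 : v.map (fun x => if f (ι x) = FreeGroup.of z₂ then x₂ else x₁) ≤ v := by
        apply le_of_map
        intro x hx
        by_cases h2 : f (ι x) = FreeGroup.of z₂
        · rw [if_pos h2]
          exact m₂ x h2
        · rw [if_neg h2]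
          rcases hvl x hx with h3 | h3
          · exact m₁ x h3
          · exact absurd h3 h2
      have hmap : v.map (fun x => if f (ι x) = FreeGroup.of z₂ then x₂ else x₁) =
          (code ι f z₂ v).map (fun b => if b then x₂ else x₁) := by
        rw [code, List.map_map]
        apply List.map_congr_left
        intro x _
        by_cases h2 : f (ι x) = FreeGroup.of z₂ <;> simp [h2]
      have hform : (code ι f z₂ v).map (fun b => if b then x₂ else x₁) =
          List.replicate i x₁ ++ x₂ :: (List.replicate j x₁ ++ x₂ :: List.replicate k x₁) := by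
        rw [hijk]
        simp
      have hle2 : w ≤ List.replicate i x₁ ++
          x₂ :: (List.replicate j x₁ ++ x₂ :: List.replicate k x₁) := by
        rcases eq_or_lt_of_le hin with h5 | h5
        · subst h5
          have hk : k = 0 := by omega
          subst hk
          exact le_refl _
        · exact le_of_lt (rep_lt x₁ x₂ hlt i j h5 _ _)
      have hle3 : w ≤ v := by
        rw [hmap, hform] at hle1
        exact hle2.trans hle1
      exact eq_or_lt_of_le hle3
  -- pumping
  rintro ⟨σ, hσ, M, hM⟩
  set n := Fintype.card σ with hn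
  obtain ⟨q, a, b, c, habc, -, hb, h1, h2, h3⟩ :=
    M.evalFrom_split (s := M.start) (x := List.replicate n x₁) (by simp [hn]) rfl
  have hacc : a ++ c ++ x₂ :: (List.replicate n x₁ ++ x₂ :: []) ∈ SL ι := by
    have h4 := key n
    rw [← hM, DFA.mem_accepts] at h4 ⊢
    rw [DFA.eval, DFA.evalFrom_of_append] at h4 ⊢
    rw [DFA.evalFrom_of_append, h1, h3]
    exact h4
  have hac : a ++ c = List.replicate (n - b.length) x₁ := by
    rw [List.eq_replicate_iff]
    have hl := congrArg List.length habc
    rw [List.length_replicate, List.length_append, List.length_append] at hl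
    refine ⟨by rw [List.length_append]; omega, fun x hx => ?_⟩
    have hx' : x ∈ List.replicate n x₁ := by
      rw [habc]
      simp only [List.mem_append] at hx ⊢
      tauto
    exact (List.mem_replicate.1 hx').2
  rw [hac] at hacc
  have hbpos : 0 < b.length := List.length_pos_iff.2 hb
  have hbn : b.length ≤ n := by
    have hl := congrArg List.length habc
    rw [List.length_replicate, List.length_append, List.length_append] at hl
    omega
  have hfin := hacc (List.replicate n x₁ ++
      x₂ :: (List.replicate (n - b.length) x₁ ++ x₂ :: [])) (by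
    rw [isConj_iff]
    refine ⟨(ev ι (List.replicate n x₁ ++ x₂ :: []))⁻¹, ?_⟩
    have e1 : ev ι (List.replicate n x₁ ++ x₂ :: (List.replicate (n - b.length) x₁ ++ x₂ :: [])) =
        ev ι (List.replicate n x₁ ++ x₂ :: []) *
          ev ι (List.replicate (n - b.length) x₁ ++ x₂ :: []) := by
      rw [← ev_append]
      simp
    have e2 : ev ι (List.replicate (n - b.length) x₁ ++ x₂ :: (List.replicate n x₁ ++ x₂ :: [])) =
        ev ι (List.replicate (n - b.length) x₁ ++ x₂ :: []) *
          ev ι (List.replicate n x₁ ++ x₂ :: []) := by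
      rw [← ev_append]
      simp
    rw [e1, e2]
    group)
  have hlen : (List.replicate (n - b.length) x₁ ++
      x₂ :: (List.replicate n x₁ ++ x₂ :: [])).length =
      (List.replicate n x₁ ++ x₂ :: (List.replicate (n - b.length) x₁ ++ x₂ :: [])).length := by
    simp
    omega
  have hlt2 := rep_lt x₁ x₂ hlt (n - b.length) n (by omega)
    (x₂ :: (List.replicate (n - b.length) x₁ ++ x₂ :: [])) (List.replicate n x₁ ++ x₂ :: [])
  rcases hfin with h5 | ⟨_, h5 | h5⟩
  · omega
  · rw [h5] at hlt2
    exact lt_irrefl _ hlt2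
  · exact lt_irrefl _ (lt_trans h5 hlt2)

end Pool.Agent.Results.MP_d3f668_al.FreeQuotients
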